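import Pool.Agent.helper51.QW.Spec

/-! # Project QW, row QWA: the weights -/

set_option autoImplicit false

namespace Pool.Agent.PT

open Finset Pool.Agent.helper71.AA

/-- the weights -/
noncomputable def QWA_xi (X η : ℝ) (K : Finset ℕ) : ℝ :=
  if K ⊆ Pool.Agent.RLS.PP (X ^ η) (Real.exp (0.553 * Real.log X / 3)) then
    Pool.Agent.RLS.lam true (0.553 * Real.log X) K else 0

theorem QWA_ne (X η : ℝ) (K : Finset ℕ) (h : QWA_xi X η K ≠ 0) :
    K ⊆ Pool.Agent.RLS.PP (X ^ η) (Real.exp (0.553 * Real.log X / 3)) ∧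
      Pool.Agent.RLS.lam true (0.553 * Real.log X) K ≠ 0 := by
  unfold QWA_xi at h
  split_ifs at h with h1
  · exact ⟨h1, h⟩
  · exact absurd rfl h

theorem QWA_pr (K : Finset ℕ) (t X : ℝ) (hX : 0 < X) (hK : ∀ p ∈ K, 1 ≤ p)
    (h : ∑ p ∈ K, Real.log p ≤ t * Real.log X) : pr K ≤ X ^ t := by
  have h1 : pr K = Real.exp (∑ p ∈ K, Real.log p) := by
    rw [Real.exp_sum]
    unfold pr
    refine prod_congr rfl fun p hp => ?_
    rw [Real.exp_log]
    have := hK p hp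
    exact_mod_cast this
  rw [h1, Real.rpow_def_of_pos hX, mul_comm (Real.log X)]
  exact Real.exp_le_exp.2 h

theorem QWA_z (X : ℝ) (hX : 1 < X) : Real.exp (0.553 * Real.log X / 3) ≤ X ^ (0.47 : ℝ) := by
  have hl : 0 < Real.log X := Real.log_pos hX
  rw [Real.rpow_def_of_pos (by linarith)]
  apply Real.exp_le_exp.2
  nlinarith

theorem QWA_U (X η : ℝ) (hX : 1 < X) (T : Finset ℕ) :
    U (QWA_xi X η) T =
      ∑ K ∈ (T ∩ Pool.Agent.RLS.PP (X ^ η) (Real.exp (0.553 * Real.log X / 3))).powerset,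
        Pool.Agent.RLS.lam true (0.553 * Real.log X) K := by
  obtain ⟨-, -, hA⟩ := WTA X η (Real.exp (0.553 * Real.log X / 3)) hX.le (QWA_z X hX)
  obtain ⟨h1, -⟩ := hA (QWA_xi X η) (fun K hK => (QWA_ne X η K hK).1) T
  rw [h1]
  refine sum_congr rfl fun K hK => ?_
  unfold QWA_xi
  rw [if_pos ((mem_powerset.1 hK).trans inter_subset_right)]

theorem QWA_V (X η : ℝ) (hX : 1 < X) (Q : Finset ℕ)
    (hQ : Pool.Agent.RLS.PP (X ^ η) (Real.exp (0.553 * Real.log X / 3)) ⊆ Q) :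
    Vx Q (QWA_xi X η) =
      ∑ K ∈ (Pool.Agent.RLS.PP (X ^ η) (Real.exp (0.553 * Real.log X / 3))).powerset,
        Pool.Agent.RLS.lam true (0.553 * Real.log X) K * ∏ p ∈ K, 1 / (p : ℝ) := by
  obtain ⟨-, -, hA⟩ := WTA X η (Real.exp (0.553 * Real.log X / 3)) hX.le (QWA_z X hX)
  obtain ⟨-, h1⟩ := hA (QWA_xi X η) (fun K hK => (QWA_ne X η K hK).1) Q
  rw [h1 hQ]
  refine sum_congr rfl fun K hK => ?_
  unfold QWA_xi pr
  rw [if_pos (mem_powerset.1 hK), prod_div_distrib, prod_const_one, mul_one_div]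

theorem QWA_adm (X η : ℝ) (hX : 1 < X) : AdmL X η (QWA_xi X η) := by
  have hX0 : 0 < X := by linarith
  have hl : 0 < Real.log X := Real.log_pos hX
  obtain ⟨hs, -, -⟩ := WTA X η (Real.exp (0.553 * Real.log X / 3)) hX.le (QWA_z X hX)
  have h1K : ∀ K, QWA_xi X η K ≠ 0 → ∀ p ∈ K, 1 ≤ p := fun K hK p hp =>
    (WTS_PP2 _ _ _ ((QWA_ne X η K hK).1 hp)).one_le
  refine ⟨fun K => ?_, fun K hK => ⟨(QWA_ne X η K hK).1.trans hs, ?_⟩, fun K hK => Or.inl ?_,
    fun T _ => ?_⟩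
  · unfold QWA_xi
    split_ifs
    · exact (Pool.Agent.RLS.LA_all.2.2.2 _ _ _).trans (by norm_num)
    · rw [abs_zero]; norm_num
  · obtain ⟨K₁, hK1, hK2, hK3⟩ := Pool.Agent.RLS.CT_all true (0.553 * Real.log X)
      (0.553 * Real.log X) 0 K (h1K K hK) (QWA_ne X η K hK).2 (by simp) (by positivity) le_rfl
      (by ring)
    have hem : ∀ p ∈ K \ K₁, Real.log p ≤ 0 → False := by
      intro p hp h0
      have h2 := (WTS_PP2 _ _ _ ((QWA_ne X η K hK).1 (mem_sdiff.1 hp).1)).two_le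
      have h3 : 0 < Real.log p := Real.log_pos (by exact_mod_cast h2)
      linarith
    have hnn : ∀ p ∈ K \ K₁, 0 ≤ Real.log (p : ℝ) := fun p _ => Real.log_natCast_nonneg p
    have hsd : K \ K₁ = ∅ := by
      by_contra hne
      obtain ⟨p, hp⟩ := nonempty_iff_ne_empty.2 hne
      exact hem p hp ((single_le_sum hnn hp).trans hK3)
    have hKK : K₁ = K := Subset.antisymm hK1 (sdiff_eq_empty_iff_subset.1 hsd)
    rw [hKK] at hK2
    exact QWA_pr K _ X hX0 (h1K K hK) hK2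
  · obtain ⟨K₁, hK1, hK2, hK3⟩ := Pool.Agent.RLS.CT_all true (0.553 * Real.log X)
      (0.445 * Real.log X) (0.108 * Real.log X) K (h1K K hK) (QWA_ne X η K hK).2 (by simp)
      (by positivity) (by positivity) (by ring)
    exact ⟨K₁, hK1, QWA_pr _ _ X hX0 (fun p hp => h1K K hK p (hK1 hp)) hK2,
      QWA_pr _ _ X hX0 (fun p hp => h1K K hK p (mem_sdiff.1 hp).1) hK3⟩
  · rw [QWA_U X η hX T]
    exact (Pool.Agent.RLS.SI_all _ _).1

theorem QWA_prod (B : Finset ℕ) :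
    Vx B (fun K => (-1 : ℝ) ^ K.card) = Pool.Agent.RLS.VV (fun p : ℕ => 1 / (p : ℝ)) B := by
  unfold Vx Pool.Agent.RLS.VV
  have h := prod_one_add (f := fun p : ℕ => -(1 / (p : ℝ))) B
  have h2 : ∏ p ∈ B, (1 - 1 / (p : ℝ)) = ∏ p ∈ B, (1 + -(1 / (p : ℝ))) :=
    prod_congr rfl fun p _ => by ring
  rw [h2, h]
  refine sum_congr rfl fun K _ => ?_
  rw [prod_neg, prod_div_distrib, prod_const_one]
  unfold pr
  rw [mul_one_div]

theorem QWA_low (X η : ℝ) (hX : 1 < X) :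
    Pool.Agent.RLS.VV (fun p : ℕ => 1 / (p : ℝ))
      (Pool.Agent.RLS.PP (X ^ η) (Real.exp (0.553 * Real.log X / 3))) ≤
    Vx (Pool.Agent.RLS.PP (X ^ η) (Real.exp (0.553 * Real.log X / 3))) (QWA_xi X η) := by
  have h := WTS_nn (Pool.Agent.RLS.PP (X ^ η) (Real.exp (0.553 * Real.log X / 3)))
    (fun l hl => (WTS_PP2 _ _ _ hl).two_le) (fun K => QWA_xi X η K - (-1 : ℝ) ^ K.card) ?_
  · rw [WTS_Vsub, QWA_prod] at h
    linarith
  · intro T hT
    rw [WTS_Usub, QWA_U X η hX T, inter_eq_left.2 hT]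
    have h1 := Pool.Agent.RLS.SI_all (0.553 * Real.log X) T
    have h2 : U (fun K => (-1 : ℝ) ^ K.card) T = if T = ∅ then 1 else 0 := by
      unfold U
      have h3 := sum_powerset_neg_one_pow_card (x := T)
      have h4 : ((∑ K ∈ T.powerset, (-1 : ℤ) ^ K.card : ℤ) : ℝ) = ((if T = ∅ then 1 else 0 : ℤ) : ℝ) := by
        rw [h3]
      push_cast at h4
      rw [h4]
    rw [h2]
    split_ifs with h5
    · have := h1.2.1 h5
      linarith
    · have := h1.1
      linarith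

theorem QWA : QWA_stmt := by
  intro eps heps
  obtain ⟨u₀, hu₀, hSV⟩ := MK.SV_all (0.553 * eps / 2) (by positivity)
  obtain ⟨C, hC, hME⟩ := Pool.Agent.RLS.ME_all
  refine ⟨0.553 / u₀, by positivity, fun η hη hη' => ?_⟩
  have hu0 : u₀ ≤ 0.553 / η := by
    rw [le_div_iff₀ hη]
    rw [le_div_iff₀ (by linarith)] at hη'
    linarith
  have hu4 : 4 ≤ 0.553 / η := hu₀.trans hu0
  have hη4 : 4 * η ≤ 0.553 := by
    rw [le_div_iff₀ hη] at hu4
    exact hu4
  obtain ⟨w₀, hw₀, hw⟩ := hSV (0.553 / η) hu0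
  obtain ⟨A, F, f, hDat⟩ := Pool.Agent.RLS.DP_all (0.553 / η) hu4
  obtain ⟨w₁, hw₁, hG⟩ := Pool.Agent.RLS.GEN_all (0.553 / η) A F f hu4 hDat 0.1 (by norm_num)
  refine ⟨max (max 2 ((max w₀ w₁) ^ (1 / η))) (Real.exp (C / (4 * η ^ 2))), fun X hX => ?_⟩
  have hX2 : 2 ≤ X := (le_max_left _ _).trans ((le_max_left _ _).trans hX)
  have hX1 : 1 < X := by linarith
  have hX0 : 0 < X := by linarith
  have hlX : 0 < Real.log X := Real.log_pos hX1
  have hwX : max w₀ w₁ ≤ X ^ η := by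
    have h1 : (max w₀ w₁) ^ (1 / η) ≤ X := (le_max_right _ _).trans ((le_max_left _ _).trans hX)
    have h0 : 0 ≤ max w₀ w₁ := le_trans (by linarith) (le_max_left w₀ w₁)
    have h2 := Real.rpow_le_rpow (by positivity) h1 hη.le
    rwa [← Real.rpow_mul h0, one_div, inv_mul_cancel₀ hη.ne', Real.rpow_one] at h2
  have hXC : C / (4 * η ^ 2) ≤ Real.log X := by
    have h1 : Real.exp (C / (4 * η ^ 2)) ≤ X := (le_max_right _ _).trans hX
    have h2 := Real.log_le_log (Real.exp_pos _) h1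
    rwa [Real.log_exp] at h2
  have hlw : Real.log (X ^ η) = η * Real.log X := Real.log_rpow hX0 _
  have hL : 0.553 * Real.log X = 0.553 / η * Real.log (X ^ η) := by
    rw [hlw, ← mul_assoc, div_mul_cancel₀ _ hη.ne']
  have hwz : X ^ η ≤ Real.exp (0.553 * Real.log X / 3) := by
    rw [Real.rpow_def_of_pos hX0]
    apply Real.exp_le_exp.2
    nlinarith
  obtain ⟨hs, -, -⟩ := WTA X η (Real.exp (0.553 * Real.log X / 3)) hX1.le (QWA_z X hX1)
  have hV := QWA_V X η hX1 (Ql X η) hs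
  have hV2 := QWA_V X η hX1 _ (Subset.refl _)
  refine ⟨QWA_xi X η, QWA_adm X η hX1, ?_, ?_, ?_, ?_⟩
  · unfold QWA_xi
    rw [if_pos (empty_subset _)]
    exact Pool.Agent.RLS.LA_all.1 _ _
  · rw [hV, ← hV2]
    refine le_trans ?_ (QWA_low X η hX1)
    have hw2 : 2 ≤ X ^ η := hw₀.trans ((le_max_left _ _).trans hwX)
    have h1 := (abs_le.1 (hME (X ^ η) (Real.exp (0.553 * Real.log X / 3)) hw2 hwz)).1
    rw [Real.log_exp, hlw] at h1
    have h2 : η * Real.log X / (0.553 * Real.log X / 3) = 3 * η / 0.553 := by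
      field_simp
    rw [h2] at h1
    have h3 : C / (η * Real.log X) ≤ 4 * η := by
      rw [div_le_iff₀ (by positivity)]
      rw [div_le_iff₀ (by positivity)] at hXC
      nlinarith
    have h4 : 5 * η ≤ 3 * η / 0.553 := by
      rw [le_div_iff₀ (by norm_num)]
      nlinarith
    linarith
  · rw [hV]
    have h1 := (hG (X ^ η) (Real.exp (0.553 * Real.log X / 3)) (Real.exp (0.553 * Real.log X))
      ((le_max_right _ _).trans hwX) hwz (by
        rw [← Real.rpow_mul hX0.le, mul_div_cancel₀ _ hη.ne', Real.rpow_def_of_pos hX0]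
        apply Real.exp_le_exp.2
        linarith)).1 (Real.exp_le_exp.2 (by linarith))
    rw [Real.log_exp, Real.log_exp, hlw] at h1
    have h2 : η * Real.log X / (0.553 * Real.log X / 3) = 3 * η / 0.553 := by
      field_simp
    have h3 : 0.553 * Real.log X / (0.553 * Real.log X / 3) = 3 := by
      field_simp
    rw [h2, h3, hDat.Fs 3 (by norm_num) le_rfl] at h1
    refine h1.trans ?_
    have h4 : A / 3 + 0.1 ≤ 1.5 := by
      have := hDat.A4
      linarith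
    have h5 : 0 ≤ 3 * η / 0.553 := by positivity
    have h6 : 3 * η / 0.553 * (A / 3 + 0.1) ≤ 3 * η / 0.553 * 1.5 := mul_le_mul_of_nonneg_left h4 h5
    refine h6.trans ?_
    rw [div_mul_eq_mul_div, div_le_iff₀ (by norm_num)]
    nlinarith
  · rw [hV]
    have h1 := (hw (X ^ η) (0.553 * Real.log X) ((le_max_left _ _).trans hwX) hL).2
    have h2 : MK.Mn (Pool.Agent.RLS.lam true (0.553 * Real.log X)) MK.gi
        (Pool.Agent.RLS.PP (X ^ η) (Real.exp (0.553 * Real.log X / 3))) =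
        ∑ K ∈ (Pool.Agent.RLS.PP (X ^ η) (Real.exp (0.553 * Real.log X / 3))).powerset,
          Pool.Agent.RLS.lam true (0.553 * Real.log X) K * ∏ p ∈ K, 1 / (p : ℝ) := rfl
    rw [h2] at h1
    have h3 := mul_le_mul_of_nonneg_right h1 hlX.le
    refine h3.trans (le_of_eq ?_)
    field_simp

end Pool.Agent.PT
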